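import Pool.Agent.H31.DP.Targets

/-!
Module CU of the project DP (`MP_c59857_nt`): the expansion over the cubes.
-/

set_option autoImplicit false

open Finset

namespace Pool.Agent.H34.DPT

open Pool.Agent.H31.DP
open Pool.Agent.H24.T2 (box cub sum_box_succ)

theorem ee_add (x y : ℝ) : ee (x + y) = ee x * ee y := by
  unfold ee
  rw [← Complex.exp_add]
  congr 1
  push_cast
  ring

theorem ee_conj (x : ℝ) : (starRingEnd ℂ) (ee x) = ee (-x) := by
  unfold ee
  rw [← Complex.exp_conj]
  congr 1
  simp only [map_mul, Complex.conj_I, Complex.conj_ofReal, Complex.ofReal_neg]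
  have h2 : (starRingEnd ℂ) (2 : ℂ) = 2 := by
    have := Complex.conj_ofReal 2
    simpa using this
  rw [h2]
  ring

theorem pf_CU : StatementCU := by
  intro X n
  induction n with
  | zero =>
    intro A φ s
    have hb : box 0 X = Finset.univ := by
      unfold Pool.Agent.H24.T2.box
      exact Fintype.piFinset_of_isEmpty _
    rw [hb, Finset.univ_unique, Finset.sum_singleton]
    rfl
  | succ n ih =>
    intro A φ s
    rw [sum_box_succ]
    show ∑ t ∈ Finset.Icc (-(X : ℤ)) X,
      Uc X n (A.filter (fun p => p + t ∈ A))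
        (fun p => ee (s * φ p) * (starRingEnd ℂ) (ee (s * φ (p + t)))) = _
    refine Finset.sum_congr rfl fun t _ => ?_
    have hc : (fun p => ee (s * φ p) * (starRingEnd ℂ) (ee (s * φ (p + t)))) =
        (fun p : ℤ => ee (s * (φ p - φ (p + t)))) := by
      funext p
      rw [ee_conj, ← ee_add]
      congr 1
      ring
    rw [hc, ih (A.filter (fun p => p + t ∈ A)) (fun x => φ x - φ (x + t)) s]
    refine Finset.sum_congr rfl fun t' _ => ?_
    have h1 : cub (n + 1) A (Fin.cons t t') = cub n (A.filter (fun p => p + t ∈ A)) t' := by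
      simp only [Pool.Agent.H24.T2.cub, Fin.cons_zero, Fin.tail_cons]
    have h2 : dl (n + 1) (Fin.cons t t') φ = dl n t' (fun x => φ x - φ (x + t)) := by
      simp only [dl, Fin.cons_zero, Fin.tail_cons]
    rw [h1, h2]

end Pool.Agent.H34.DPT
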