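import Pool.Agent.H31.DP.Targets

/-!
Module KB of the project DP (`MP_c59857_nt`): refining the residue classes.
-/

set_option autoImplicit false

open Finset

namespace Pool.Agent.H34.DPT

open Pool.Agent.H31.DP

theorem cls_refine (a : ℤ → ℂ) (M p Q : ℕ) (hQ : 0 < Q) (hp : p ∣ Q) (r : ℕ) (hr : r < p) :
    cls a M p r = ∑ r1 ∈ (Finset.range Q).filter (fun r1 => r1 % p = r), cls a M Q r1 := by
  have hQ' : (0 : ℤ) < Q := by exact_mod_cast hQ
  have hpQ : (p : ℤ) ∣ (Q : ℤ) := by exact_mod_cast hp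
  have key : ∀ y : ℤ, (Q : ℤ) ∣ y - ((y % (Q : ℤ)).toNat : ℤ) := by
    intro y
    rw [Int.toNat_of_nonneg (Int.emod_nonneg _ hQ'.ne')]
    exact Int.dvd_self_sub_emod
  have hmaps : ∀ y ∈ (Finset.Icc (1 : ℤ) M).filter (fun y => (p : ℤ) ∣ y - (r : ℤ)),
      (y % (Q : ℤ)).toNat ∈ (Finset.range Q).filter (fun r1 => r1 % p = r) := by
    intro y hy
    have hy2 := (Finset.mem_filter.1 hy).2
    refine Finset.mem_filter.2 ⟨?_, ?_⟩
    · rw [Finset.mem_range]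
      have := Int.emod_lt_of_pos y hQ'
      have h0 := Int.emod_nonneg y hQ'.ne'
      omega
    · have h1 : (p : ℤ) ∣ ((y % (Q : ℤ)).toNat : ℤ) - (r : ℤ) := by
        have h2 := hpQ.trans (key y)
        have h3 := dvd_sub hy2 h2
        have h4 : y - (r : ℤ) - (y - ((y % (Q : ℤ)).toNat : ℤ)) =
            ((y % (Q : ℤ)).toNat : ℤ) - (r : ℤ) := by ring
        rwa [h4] at h3
      have h5 : ((y % (Q : ℤ)).toNat) ≡ r [MOD p] :=
        ((Nat.modEq_iff_dvd).2 h1).symm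
      have h6 : ((y % (Q : ℤ)).toNat) % p = r % p := h5
      rw [h6, Nat.mod_eq_of_lt hr]
  unfold cls
  rw [← Finset.sum_fiberwise_of_maps_to hmaps]
  refine Finset.sum_congr rfl fun r1 hr1 => ?_
  have hr1Q : r1 < Q := Finset.mem_range.1 (Finset.mem_filter.1 hr1).1
  have hr1p : r1 % p = r := (Finset.mem_filter.1 hr1).2
  refine Finset.sum_congr ?_ fun _ _ => rfl
  ext y
  simp only [Finset.mem_filter]
  constructor
  · rintro ⟨⟨h1, _⟩, h3⟩
    refine ⟨h1, ?_⟩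
    have := key y
    rwa [h3] at this
  · rintro ⟨h1, h2⟩
    have hmod : (y % (Q : ℤ)).toNat = r1 := by
      have h3 : y % (Q : ℤ) = (r1 : ℤ) % (Q : ℤ) :=
        ((Int.modEq_iff_dvd).2 h2).symm
      have h4 : (r1 : ℤ) % (Q : ℤ) = r1 :=
        Int.emod_eq_of_lt (by positivity) (by exact_mod_cast hr1Q)
      rw [h3, h4]
      simp
    refine ⟨⟨h1, ?_⟩, hmod⟩
    have h5 : (p : ℤ) ∣ y - (r1 : ℤ) := hpQ.trans h2
    have h6 : (p : ℤ) ∣ (r1 : ℤ) - (r : ℤ) := by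
      have h7 : (r1 : ℤ) % (p : ℤ) = (r : ℤ) := by exact_mod_cast hr1p
      rw [← h7]
      exact Int.dvd_self_sub_emod
    have h8 := dvd_add h5 h6
    have h9 : y - (r1 : ℤ) + ((r1 : ℤ) - (r : ℤ)) = y - (r : ℤ) := by ring
    rwa [h9] at h8

theorem card_fib (p Q r : ℕ) (hp0 : 0 < p) (hp : p ∣ Q) :
    (((Finset.range Q).filter (fun r1 => r1 % p = r)).card : ℝ) ≤ (Q : ℝ) / p := by
  obtain ⟨k, rfl⟩ := hp
  have h1 : ((Finset.range (p * k)).filter (fun r1 => r1 % p = r)).card ≤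
      (Finset.range k).card := by
    refine Finset.card_le_card_of_injOn (fun r1 => r1 / p) ?_ ?_
    · intro r1 hr1
      have h2 := Finset.mem_range.1 (Finset.mem_filter.1 hr1).1
      exact Finset.mem_coe.2 (Finset.mem_range.2 (Nat.div_lt_of_lt_mul h2))
    · intro x hx y hy hxy
      have hx2 := (Finset.mem_filter.1 hx).2
      have hy2 := (Finset.mem_filter.1 hy).2
      have hxy' : x / p = y / p := hxy
      rw [← Nat.div_add_mod x p, ← Nat.div_add_mod y p, hxy', hx2, hy2]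
  rw [Finset.card_range] at h1
  have hp1 : (0 : ℝ) < p := by exact_mod_cast hp0
  rw [le_div_iff₀ hp1]
  push_cast
  have h3 : (((Finset.range (p * k)).filter (fun r1 => r1 % p = r)).card : ℝ) ≤ k := by
    exact_mod_cast h1
  calc (((Finset.range (p * k)).filter (fun r1 => r1 % p = r)).card : ℝ) * p
      ≤ k * p := by gcongr
    _ = p * k := by ring

theorem pf_KB : StatementKB := by
  intro a M p Q hQ hp
  have hp0 : 0 < p := Nat.pos_of_dvd_of_pos hp hQ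
  have hmaps : ∀ r1 ∈ Finset.range Q, r1 % p ∈ Finset.range p := fun r1 _ =>
    Finset.mem_range.2 (Nat.mod_lt _ hp0)
  rw [← Finset.sum_fiberwise_of_maps_to hmaps (fun r => ‖cls a M Q r‖ ^ 2), Finset.mul_sum]
  refine Finset.sum_le_sum fun r hr => ?_
  rw [cls_refine a M p Q hQ hp r (Finset.mem_range.1 hr)]
  set t := (Finset.range Q).filter (fun r1 => r1 % p = r) with ht
  have h1 : ‖∑ r1 ∈ t, cls a M Q r1‖ ≤ ∑ r1 ∈ t, ‖cls a M Q r1‖ := norm_sum_le _ _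
  have h2 : (∑ r1 ∈ t, ‖cls a M Q r1‖) ^ 2 ≤ t.card * ∑ r1 ∈ t, ‖cls a M Q r1‖ ^ 2 :=
    sq_sum_le_card_mul_sum_sq
  have h3 : (t.card : ℝ) ≤ (Q : ℝ) / p := card_fib p Q r hp0 hp
  calc ‖∑ r1 ∈ t, cls a M Q r1‖ ^ 2 ≤ (∑ r1 ∈ t, ‖cls a M Q r1‖) ^ 2 := by
        gcongr
    _ ≤ t.card * ∑ r1 ∈ t, ‖cls a M Q r1‖ ^ 2 := h2
    _ ≤ ((Q : ℝ) / p) * ∑ r1 ∈ t, ‖cls a M Q r1‖ ^ 2 := by
        gcongr

end Pool.Agent.H34.DPT
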